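import Pool.Agent.MP_077ac3_nt.H18.Main

/-!
The Subspace Theorem in two variables over a number field.
-/

set_option autoImplicit false

namespace Pool.Agent.MP_09973c_nt.H45

open Finset Filter NumberField Module Topology

/-- The Subspace Theorem with arbitrary finite index types and no finite places. -/
theorem sub_gen {ι κ : Type} [Fintype ι] [Fintype κ] (e : ι ≃ κ) (L : ι → κ → ℝ)
    (halg : ∀ i j, IsAlgebraic ℚ (L i j))
    (hinj : ∀ t : κ → ℝ, (∀ i, ∑ j, L i j * t j = 0) → t = 0) (c : ι → ℝ) (hc : ∑ i, c i < 0)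
    (U : Ultrafilter ℕ) (Q : ℕ → ℝ) (hQ : Tendsto Q U atTop) :
    ∃ w : κ → ℤ, w ≠ 0 ∧ ∀ᶠ ν in (U : Filter ℕ), ∀ x : κ → ℤ,
      (∀ i, |∑ j, L i j * (x j : ℝ)| ≤ Real.exp (c i * Q ν)) → ∑ j, w j * x j = 0 := by
  classical
  let f : Fin (Fintype.card κ) ≃ κ := (Fintype.equivFin κ).symm
  let f' : Fin (Fintype.card κ) ≃ ι := f.trans e.symm
  let M : Matrix (Fin (Fintype.card κ)) (Fin (Fintype.card κ)) ℝ :=
    Matrix.of fun i j => L (f' i) (f j)
  have hdet : M.det ≠ 0 := by
    intro h0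
    obtain ⟨v, hv, hMv⟩ := Matrix.exists_mulVec_eq_zero_iff.2 h0
    have h1 := hinj (fun j => v (f.symm j)) fun i => by
      have h2 := congrFun hMv (f'.symm i)
      simp only [Matrix.mulVec, dotProduct, M, Matrix.of_apply, Equiv.apply_symm_apply,
        Pi.zero_apply] at h2
      rw [← h2, ← f.sum_comp]
      simp
    exact hv (funext fun j => by simpa using congrFun h1 (f j))
  obtain ⟨w, hw, hev⟩ := MP_077ac3_nt.H18.subspace (Fintype.card κ) Empty M (fun s => s.elim)
    (fun i => c (f' i)) (fun _ s => s.elim) (fun i j => halg _ _) hdet (fun s => s.elim)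
    (fun s => s.elim) (fun _ s => s.elim) (by simpa [f'.sum_comp c] using hc) (U.map Q) hQ
  refine ⟨fun j => w (f.symm j), fun h0 => hw (funext fun j => by
    simpa using congrFun h0 (f j)), ?_⟩
  have hev' := (eventually_map (m := Q) (f := (U : Filter ℕ))).1 hev
  filter_upwards [hev'] with ν hν x hx
  have h1 := hν (fun j => x (f j)) (fun i => by
    have h2 := hx (f' i)
    rw [← f.sum_comp] at h2
    exact h2) (fun i => by simp [MP_077ac3_nt.H18.dv])
  rw [← f.sum_comp]
  simpa using h1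

/-- Real part plus imaginary part. -/
def ri (z : ℂ) : ℝ := z.re + z.im

theorem ri_alg {z : ℂ} (h : IsAlgebraic ℚ z) : IsAlgebraic ℚ (ri z) := by
  have hI : IsIntegral ℚ Complex.I :=
    IsIntegral.of_pow (n := 4) (by norm_num) (by simpa using isIntegral_one)
  have hz : IsIntegral ℚ z := h.isIntegral
  have hc : IsIntegral ℚ ((starRingEnd ℂ) z) := hz.map (starRingEnd ℂ).toRatAlgHom
  have h1 : algebraMap ℝ ℂ (ri z) =
      (1 / 2 : ℚ) • ((1 - Complex.I) * z + (1 + Complex.I) * (starRingEnd ℂ) z) := by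
    apply Complex.ext <;> simp [ri, Rat.smul_def] <;> ring
  have h2 : IsIntegral ℚ (algebraMap ℝ ℂ (ri z)) := by
    rw [h1]
    exact (((isIntegral_one.sub hI).mul hz).add ((isIntegral_one.add hI).mul hc)).smul _
  exact ((isIntegral_algebraMap_iff (algebraMap ℝ ℂ).injective).1 h2).isAlgebraic

theorem abs_ri_le (z : ℂ) : |ri z| ≤ 2 * ‖z‖ := by
  have h1 := Complex.abs_re_le_norm z
  have h2 := Complex.abs_im_le_norm z
  have h3 := abs_add_le z.re z.im
  unfold ri
  linarith

theorem ri_sum {κ : Type} [Fintype κ] (a : κ → ℂ) (t : κ → ℝ) :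
    ∑ j, ri (a j) * t j = ri (∑ j, a j * t j) := by
  simp [ri, Complex.re_sum, Complex.im_sum, add_mul, sum_add_distrib]

theorem ri_add (a b : ℂ) : ri (a + b) = ri a + ri b := by
  simp only [ri, Complex.add_re, Complex.add_im]
  ring

variable {K : Type} [Field K] [NumberField K]

theorem ri_inj (t : Free.ChooseBasisIndex ℤ (𝓞 K) → ℝ)
    (h : ∀ σ : K →+* ℂ, ri (∑ j, σ (integralBasis K j) * t j) = 0) : t = 0 := by
  have h1 : ∀ σ : K →+* ℂ, ∑ j, σ (integralBasis K j) * t j = 0 := by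
    intro σ
    have h2 := h σ
    have h3 := h (ComplexEmbedding.conjugate σ)
    have h4 : ∑ j, ComplexEmbedding.conjugate σ (integralBasis K j) * (t j : ℂ) =
        (starRingEnd ℂ) (∑ j, σ (integralBasis K j) * t j) := by
      simp [ComplexEmbedding.conjugate_coe_eq]
    rw [h4] at h3
    simp only [ri, Complex.conj_re, Complex.conj_im] at h2 h3
    apply Complex.ext
    · simp only [Complex.zero_re]
      linarith
    · simp only [Complex.zero_im]
      linarith
  have h2 := Fintype.linearIndependent_iff.1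
    (canonicalEmbedding.latticeBasis K).linearIndependent (fun j => (t j : ℂ)) (by
      funext σ
      rw [Finset.sum_apply, Pi.zero_apply, ← h1 σ]
      refine sum_congr rfl fun j _ => ?_
      rw [canonicalEmbedding.latticeBasis_apply, Pi.smul_apply, canonicalEmbedding.apply_at,
        smul_eq_mul, mul_comm])
  funext j
  exact_mod_cast h2 j

theorem emb_repr (σ : K →+* ℂ) (y : 𝓞 K) :
    ∑ j, σ (integralBasis K j) * ((((RingOfIntegers.basis K).repr y j : ℤ) : ℝ) : ℂ) = σ y := by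
  conv_rhs => rw [← (RingOfIntegers.basis K).sum_repr y]
  simp [mul_comm]

/-- Limits of the proportions along an ultrafilter. -/
theorem exists_prop {ι : Type} [Fintype ι] (U : Ultrafilter ℕ) (l : ℕ → ι → ℝ)
    (h0 : ∀ ν i, 0 ≤ l ν i) (hQ : Tendsto (fun ν => ∑ i, l ν i) U atTop) :
    ∃ c : ι → ℝ, ∑ i, c i = 1 ∧ ∀ ε > 0, ∀ᶠ ν in (U : Filter ℕ), ∀ i,
      |l ν i - c i * ∑ i, l ν i| ≤ ε * ∑ i, l ν i := by
  have h1 : ∀ i, ∃ c : ℝ, Tendsto (fun ν => l ν i / ∑ i, l ν i) U (𝓝 c) := by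
    intro i
    obtain ⟨c, -, hc⟩ := (isCompact_Icc (a := (0 : ℝ)) (b := 1)).ultrafilter_le_nhds
      (U.map fun ν => l ν i / ∑ i, l ν i) (by
        rw [le_principal_iff, Ultrafilter.coe_map, Filter.mem_map]
        refine univ_mem' fun ν => ⟨div_nonneg (h0 ν i) (sum_nonneg fun j _ => h0 ν j), ?_⟩
        exact div_le_one_of_le₀ (single_le_sum (fun j _ => h0 ν j) (mem_univ i))
          (sum_nonneg fun j _ => h0 ν j))
    exact ⟨c, hc⟩
  choose c hc using h1
  have hpos : ∀ᶠ ν in (U : Filter ℕ), 0 < ∑ i, l ν i := hQ.eventually_gt_atTop 0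
  refine ⟨c, ?_, fun ε hε => ?_⟩
  · have h2 := tendsto_finsetSum univ fun i _ => hc i
    refine tendsto_nhds_unique h2 (tendsto_const_nhds.congr' ?_)
    filter_upwards [hpos] with ν hν
    rw [← sum_div, div_self hν.ne']
  · have h2 : ∀ᶠ ν in (U : Filter ℕ), ∀ i, dist (l ν i / ∑ i, l ν i) (c i) < ε :=
      eventually_all.2 fun i => (Metric.tendsto_nhds.1 (hc i)) ε hε
    filter_upwards [hpos, h2] with ν hν h3 i
    have h4 := (h3 i).le
    rw [Real.dist_eq] at h4
    have h5 : l ν i - c i * ∑ i, l ν i = (l ν i / (∑ i, l ν i) - c i) * ∑ i, l ν i := by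
      field_simp
    rw [h5, abs_mul, abs_of_pos hν]
    exact mul_le_mul_of_nonneg_right h4 hν.le

/-- A rational relation killing all multiples of a point determines the line. -/
theorem line_unique (w w' : Free.ChooseBasisIndex ℤ (𝓞 K) → ℤ) (hw : w ≠ 0 ∨ w' ≠ 0) :
    ∃ μ : K, ∀ x x' : 𝓞 K, (x : K) ≠ 0 →
      (∀ i, ∑ j, w j * (RingOfIntegers.basis K).repr (RingOfIntegers.basis K i * x) j +
        ∑ j, w' j * (RingOfIntegers.basis K).repr (RingOfIntegers.basis K i * x') j = 0) →
      (x' : K) = μ * x := by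
  let lam : (Free.ChooseBasisIndex ℤ (𝓞 K) → ℤ) → K →ₗ[ℚ] ℚ := fun v =>
    ∑ j, (v j : ℚ) • (integralBasis K).coord j
  have hlam : ∀ v (y : 𝓞 K), lam v y =
      ((∑ j, v j * (RingOfIntegers.basis K).repr y j : ℤ) : ℚ) := by
    intro v y
    simp only [lam, LinearMap.sum_apply, LinearMap.smul_apply, Basis.coord_apply, smul_eq_mul]
    push_cast
    refine sum_congr rfl fun j _ => ?_
    rw [show (y : K) = algebraMap (𝓞 K) K y from rfl, integralBasis_repr_apply]
    simp
  have hzero : ∀ v, (∀ y, lam v y = 0) → v = 0 := by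
    intro v hv
    classical
    funext j
    have h1 := hv (integralBasis K j)
    simp only [lam, LinearMap.sum_apply, LinearMap.smul_apply, Basis.coord_apply, smul_eq_mul,
      Basis.repr_self, Finsupp.single_apply, mul_ite, mul_one, mul_zero, sum_ite_eq,
      mem_univ, if_true] at h1
    exact_mod_cast h1
  have hrel : ∀ x x' : 𝓞 K, (x : K) ≠ 0 →
      (∀ i, ∑ j, w j * (RingOfIntegers.basis K).repr (RingOfIntegers.basis K i * x) j +
        ∑ j, w' j * (RingOfIntegers.basis K).repr (RingOfIntegers.basis K i * x') j = 0) →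
      ∀ y : K, lam w y + lam w' (y * ((x' : K) / x)) = 0 := by
    intro x x' hx h y
    have h1 : (lam w) ∘ₗ (LinearMap.mulRight ℚ (x : K)) +
        (lam w') ∘ₗ (LinearMap.mulRight ℚ (x' : K)) = 0 := by
      refine (integralBasis K).ext fun i => ?_
      have h2 := hlam w (RingOfIntegers.basis K i * x)
      have h3 := hlam w' (RingOfIntegers.basis K i * x')
      simp only [LinearMap.add_apply, LinearMap.comp_apply, LinearMap.mulRight_apply,
        LinearMap.zero_apply, integralBasis_apply]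
      have h4 : ∀ z : 𝓞 K, algebraMap (𝓞 K) K (RingOfIntegers.basis K i) * (z : K) =
          ((RingOfIntegers.basis K i * z : 𝓞 K) : K) := fun z => (map_mul _ _ _).symm
      rw [h4, h4, h2, h3]
      exact_mod_cast h i
    have h2 := LinearMap.congr_fun h1 (y / x)
    simp only [LinearMap.add_apply, LinearMap.comp_apply, LinearMap.mulRight_apply,
      LinearMap.zero_apply] at h2
    rw [div_mul_cancel₀ _ hx] at h2
    rw [← h2]
    congr 2
    field_simp
  by_cases hex : ∃ μ : K, ∀ y : K, lam w y + lam w' (y * μ) = 0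
  · obtain ⟨μ, hμ⟩ := hex
    refine ⟨μ, fun x x' hx h => ?_⟩
    have h1 := hrel x x' hx h
    by_contra hne
    have h2 : (x' : K) / x - μ ≠ 0 := fun h3 => hne (by
      rw [← sub_eq_zero.1 h3, div_mul_cancel₀ _ hx])
    have h3 : ∀ y, lam w' y = 0 := by
      intro y
      have h4 := h1 (y / ((x' : K) / x - μ))
      have h5 := hμ (y / ((x' : K) / x - μ))
      have h6 : lam w' (y / ((x' : K) / x - μ) * ((x' : K) / x - μ)) = 0 := by
        rw [mul_sub, map_sub]
        linarith
      rwa [div_mul_cancel₀ _ h2] at h6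
    have h4 : ∀ y, lam w y = 0 := fun y => by simpa [h3] using hμ y
    exact hw.elim (fun h5 => h5 (hzero _ h4)) fun h5 => h5 (hzero _ h3)
  · exact ⟨0, fun x x' hx h => (hex ⟨_, hrel x x' hx h⟩).elim⟩

theorem core (U : Ultrafilter ℕ) (x x' : ℕ → 𝓞 K) (ζ : (K →+* ℂ) → ℂ)
    (hζ : ∀ σ, IsAlgebraic ℚ (ζ σ)) (C : ℝ)
    (h : ∀ᶠ ν in (U : Filter ℕ), ∀ σ : K →+* ℂ,
      ‖σ (x' ν) - ζ σ * σ (x ν)‖ * (max 1 ‖σ (x ν)‖) ^ 2 ≤ C)
    (σ₀ : K →+* ℂ) (hlim : Tendsto (fun ν => ‖σ₀ (x ν)‖) U atTop) :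
    ∃ μ : K, ∀ᶠ ν in (U : Filter ℕ), (x' ν : K) = μ * x ν := by
  classical
  let l : ℕ → (K →+* ℂ) → ℝ := fun ν σ => Real.log (max 1 ‖σ (x ν)‖)
  have hl0 : ∀ ν σ, 0 ≤ l ν σ := fun ν σ => Real.log_nonneg (le_max_left _ _)
  have hexp : ∀ ν σ, Real.exp (l ν σ) = max 1 ‖σ (x ν)‖ := fun ν σ =>
    Real.exp_log (lt_of_lt_of_le one_pos (le_max_left _ _))
  have hQ : Tendsto (fun ν => ∑ σ, l ν σ) U atTop := by
    refine tendsto_atTop_mono (fun ν => single_le_sum (fun σ _ => hl0 ν σ) (mem_univ σ₀)) ?_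
    exact Real.tendsto_log_atTop.comp (tendsto_atTop_mono (fun ν => le_max_right _ _) hlim)
  obtain ⟨c, hc1, hc⟩ := exists_prop U l hl0 hQ
  have hn : (0 : ℝ) < Fintype.card (K →+* ℂ) := by
    exact_mod_cast Fintype.card_pos_iff.2 ⟨σ₀⟩
  set ε : ℝ := 1 / (6 * Fintype.card (K →+* ℂ)) with hε
  have hε0 : 0 < ε := by positivity
  have halg : ∀ (σ : K →+* ℂ) (y : K), IsAlgebraic ℚ (σ y) := fun σ y =>
    ((Algebra.IsIntegral.isIntegral (R := ℚ) y).map σ.toRatAlgHom).isAlgebraic
  let L : (K →+* ℂ) ⊕ (K →+* ℂ) →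
      Free.ChooseBasisIndex ℤ (𝓞 K) ⊕ Free.ChooseBasisIndex ℤ (𝓞 K) → ℝ :=
    Sum.elim (fun σ => Sum.elim (fun j => ri (σ (integralBasis K j))) fun _ => 0)
      fun σ => Sum.elim (fun j => ri (-ζ σ * σ (integralBasis K j)))
        fun j => ri (σ (integralBasis K j))
  have hL1 : ∀ σ (t : _ → ℝ), ∑ j, L (.inl σ) j * t j =
      ri (∑ j, σ (integralBasis K j) * t (.inl j)) := by
    intro σ t
    simp [L, Fintype.sum_sum_type, ← ri_sum]
  have hL2 : ∀ σ (t : _ → ℝ), ∑ j, L (.inr σ) j * t j =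
      ri (∑ j, σ (integralBasis K j) * t (.inr j) -
        ζ σ * ∑ j, σ (integralBasis K j) * t (.inl j)) := by
    intro σ t
    simp only [L, Fintype.sum_sum_type, Sum.elim_inl, Sum.elim_inr, ri_sum, ← ri_add]
    congr 1
    rw [mul_sum, sub_eq_neg_add, ← sum_neg_distrib]
    congr 1
    exact sum_congr rfl fun j _ => by ring
  obtain ⟨w, hw, hev⟩ := sub_gen (Equiv.sumCongr (equivReindex K) (equivReindex K)) L
    (by
      rintro (σ | σ) (j | j)
      · exact ri_alg (halg _ _)
      · exact isAlgebraic_zero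
      · exact ri_alg ((hζ σ).neg.mul (halg _ _))
      · exact ri_alg (halg _ _))
    (by
      intro t ht
      have h1 : (fun j => t (.inl j)) = 0 := ri_inj _ fun σ => by rw [← hL1, ht]
      have h2 : (fun j => t (.inr j)) = 0 := ri_inj _ fun σ => by
        have h3 := ht (.inr σ)
        rw [hL2] at h3
        simpa [fun j => congrFun h1 j] using h3
      funext j
      cases j with
      | inl j => exact congrFun h1 j
      | inr j => exact congrFun h2 j)
    (Sum.elim (fun σ => c σ + 2 * ε) fun σ => -2 * c σ + 3 * ε)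
    (by
      simp only [Fintype.sum_sum_type, Sum.elim_inl, Sum.elim_inr, sum_add_distrib, ← mul_sum,
        hc1, sum_const, card_univ, nsmul_eq_mul]
      have : (Fintype.card (K →+* ℂ) : ℝ) * ε = 1 / 6 := by
        rw [hε]
        field_simp
      nlinarith) U _ hQ
  obtain ⟨μ, hμ⟩ := line_unique (fun j => w (.inl j)) (fun j => w (.inr j)) (by
    by_contra h0
    push Not at h0
    exact hw (funext fun j => by
      cases j with
      | inl j => exact congrFun h0.1 j
      | inr j => exact congrFun h0.2 j))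
  obtain ⟨B, hB⟩ := (Set.finite_range fun a : (K →+* ℂ) × Free.ChooseBasisIndex ℤ (𝓞 K) =>
    ‖a.1 (integralBasis K a.2)‖).bddAbove
  have hB' : ∀ (σ : K →+* ℂ) i, ‖σ (integralBasis K i)‖ ≤ B := fun σ i => hB ⟨(σ, i), rfl⟩
  have hbig : ∀ᶠ ν in (U : Filter ℕ), 2 * B * max 1 C ≤ Real.exp (ε * ∑ σ, l ν σ) :=
    (Real.tendsto_exp_atTop.comp (hQ.const_mul_atTop hε0)).eventually_ge_atTop _
  refine ⟨μ, ?_⟩
  filter_upwards [h, hev, hc ε hε0, hbig, hlim.eventually_gt_atTop 0] with ν h1 h2 h3 h4 h5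
  refine hμ _ _ (fun h0 => by simp [h0] at h5) fun i => ?_
  have hB0 : 0 ≤ B := (norm_nonneg _).trans (hB' σ₀ i)
  have hmul : ∀ (σ : K →+* ℂ) (z : 𝓞 K), σ ((RingOfIntegers.basis K i * z : 𝓞 K) : K) =
      σ (integralBasis K i) * σ z := fun σ z => by
    rw [integralBasis_apply, ← map_mul]
    exact congrArg σ (map_mul (algebraMap (𝓞 K) K) _ _)
  have h6 := h2 (Sum.elim
    (fun j => (RingOfIntegers.basis K).repr (RingOfIntegers.basis K i * x ν) j)
    fun j => (RingOfIntegers.basis K).repr (RingOfIntegers.basis K i * x' ν) j) (by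
      rintro (σ | σ)
      · rw [hL1 σ fun j => ((Sum.elim _ _ j : ℤ) : ℝ)]
        simp only [Sum.elim_inl, emb_repr, hmul]
        refine (abs_ri_le _).trans ?_
        have h7 : ‖σ (x ν)‖ ≤ Real.exp ((c σ + ε) * ∑ σ, l ν σ) := by
          refine (le_max_right 1 _).trans ?_
          rw [← hexp]
          have := (abs_le.1 (h3 σ)).2
          exact Real.exp_le_exp.2 (by linarith)
        have h8 : 2 * B ≤ Real.exp (ε * ∑ σ, l ν σ) :=
          le_trans (le_mul_of_one_le_right (by positivity) (le_max_left _ _)) h4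
        calc 2 * ‖σ (integralBasis K i) * σ (x ν)‖
            = 2 * ‖σ (integralBasis K i)‖ * ‖σ (x ν)‖ := by rw [norm_mul, mul_assoc]
          _ ≤ Real.exp (ε * ∑ σ, l ν σ) * Real.exp ((c σ + ε) * ∑ σ, l ν σ) :=
            mul_le_mul (le_trans (by linarith [hB' σ i]) h8) h7 (norm_nonneg _)
              (Real.exp_pos _).le
          _ = _ := by
            rw [← Real.exp_add]
            congr 1
            ring
      · rw [hL2 σ fun j => ((Sum.elim _ _ j : ℤ) : ℝ)]
        simp only [Sum.elim_inl, Sum.elim_inr, emb_repr, hmul]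
        refine (abs_ri_le _).trans ?_
        have h7 : ‖σ (x' ν) - ζ σ * σ (x ν)‖ ≤
            max 1 C * Real.exp ((-2 * c σ + 2 * ε) * ∑ σ, l ν σ) := by
          have h8 := h1 σ
          rw [← hexp, ← Real.exp_nat_mul] at h8
          have h9 : ‖σ (x' ν) - ζ σ * σ (x ν)‖ ≤ max 1 C * Real.exp (-((2 : ℕ) * l ν σ)) := by
            rw [Real.exp_neg, ← div_eq_mul_inv, le_div_iff₀ (Real.exp_pos _)]
            exact h8.trans (le_max_right _ _)
          refine h9.trans (mul_le_mul_of_nonneg_left (Real.exp_le_exp.2 ?_) (by positivity))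
          have := (abs_le.1 (h3 σ)).1
          push_cast
          linarith
        calc 2 * ‖σ (integralBasis K i) * σ (x' ν) - ζ σ * (σ (integralBasis K i) * σ (x ν))‖
            = 2 * ‖σ (integralBasis K i)‖ * ‖σ (x' ν) - ζ σ * σ (x ν)‖ := by
              rw [mul_assoc, ← norm_mul]
              congr 2
              ring
          _ ≤ 2 * B * (max 1 C * Real.exp ((-2 * c σ + 2 * ε) * ∑ σ, l ν σ)) :=
            mul_le_mul (by linarith [hB' σ i]) h7 (norm_nonneg _) (by positivity)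
          _ ≤ Real.exp (ε * ∑ σ, l ν σ) * Real.exp ((-2 * c σ + 2 * ε) * ∑ σ, l ν σ) := by
            rw [← mul_assoc]
            exact mul_le_mul_of_nonneg_right h4 (Real.exp_pos _).le
          _ = _ := by
            rw [← Real.exp_add]
            congr 1
            ring)
  simpa [Fintype.sum_sum_type] using h6

end Pool.Agent.MP_09973c_nt.H45
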