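import Pool.Agent.MP_09973c_nt.H58.SpecA
import Pool.Agent.MP_09973c_nt.H45.RothCore

/-!
Roth's theorem in the form `RothStmt`.
-/

set_option autoImplicit false

namespace Pool.Agent.MP_09973c_nt.H45

open Finset Filter NumberField Module Topology Pool.Agent.MP_09973c_nt.H58

/-- Complex embeddings of a subfield of `Qb` come from the Galois group. -/
theorem exists_gal (K : IntermediateField ℚ Qb) [FiniteDimensional ℚ K] (σ : K →+* ℂ) :
    ∃ g : Gal, ∀ y : K, ((g (y : Qb) : Qb) : ℂ) = σ y := by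
  have halg : ∀ y : K, σ.toRatAlgHom y ∈ (algebraicClosure ℚ ℂ).toSubalgebra := fun y =>
    mem_algebraicClosure_iff'.2 ((Algebra.IsIntegral.isIntegral (R := ℚ) y).map σ.toRatAlgHom)
  let φ : K →ₐ[ℚ] Qb := σ.toRatAlgHom.codRestrict _ halg
  refine ⟨AlgEquiv.ofBijective (φ.liftNormal Qb) (AlgHom.normal_bijective ℚ Qb Qb _), fun y => ?_⟩
  exact congrArg (fun z : Qb => (z : ℂ)) (φ.liftNormal_commutes Qb y)

/-- A function with values in a finite set is constant along an ultrafilter. -/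
theorem ultra_const {α : Type} {Z : Set α} (hZ : Z.Finite) (U : Ultrafilter ℕ)
    {P : ℕ → α → Prop} (h : ∀ᶠ ν in (U : Filter ℕ), ∃ z ∈ Z, P ν z) :
    ∃ z ∈ Z, ∀ᶠ ν in (U : Filter ℕ), P ν z :=
  (Ultrafilter.eventually_exists_mem_iff hZ).1 h

theorem roth : RothStmt := by
  intro S d M C U X X' hd hM h hlim
  let K := IntermediateField.adjoin ℚ (S : Set Qb)
  have : FiniteDimensional ℚ K := IntermediateField.finiteDimensional_adjoin
    fun x _ => Algebra.IsIntegral.isIntegral x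
  have : NumberField K := ⟨⟩
  have hS : Algebra.IsAlgebraic K Qb := Algebra.IsAlgebraic.tower_top (K := ℚ) _
  have hd' : (d : Qb) ≠ 0 := by exact_mod_cast hd.ne'
  have hd1 : (1 : ℝ) ≤ d := by exact_mod_cast hd
  have hlift : ∀ Y : Qb, ∃ y : 𝓞 K, (∀ g ∈ Fix ℚ (S : Set Qb), g Y = Y) →
      IsIntegral ℤ ((d : Qb) * Y) → ((y : K) : Qb) = d * Y := by
    intro Y
    by_cases hY : (∀ g ∈ Fix ℚ (S : Set Qb), g Y = Y) ∧ IsIntegral ℤ ((d : Qb) * Y)
    · have h1 : (d : Qb) * Y ∈ K := mul_mem (natCast_mem _ _) (mem_adjoin_of_fixed hS hY.1)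
      have h2 : IsIntegral ℤ (⟨_, h1⟩ : K) :=
        (isIntegral_algHom_iff (K.val.restrictScalars ℤ) Subtype.val_injective).1 hY.2
      exact ⟨⟨⟨_, h1⟩, h2⟩, fun _ _ => rfl⟩
    · exact ⟨0, fun h1 h2 => (hY ⟨h1, h2⟩).elim⟩
  choose lf hlf using hlift
  choose g hg using exists_gal K
  have hx : ∀ᶠ ν in (U : Filter ℕ), ((lf (X ν) : K) : Qb) = d * X ν ∧
      ((lf (X' ν) : K) : Qb) = d * X' ν := h.mono fun ν hν =>
    ⟨hlf _ (fun g hg => (hν.1 g hg).1) hν.2.1, hlf _ (fun g hg => (hν.1 g hg).2) hν.2.2.1⟩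
  have hζ : ∀ σ : K →+* ℂ, ∃ z ∈ insert (0 : Qb) {z : Qb | z ^ M = 1}, ∀ᶠ ν in (U : Filter ℕ),
      ‖g σ (X' ν) - z * g σ (X ν)‖ * (max 1 ‖g σ (X ν)‖) ^ 2 ≤ max 1 C ^ 3 := by
    intro σ
    refine ultra_const ((finite_roots_one hM).insert 0) U (h.mono fun ν hν => ?_)
    have hC1 : (1 : ℝ) ≤ max 1 C := le_max_left _ _
    rcases hν.2.2.2 (g σ) with h1 | ⟨z, hz, h1, h2⟩
    · refine ⟨0, Set.mem_insert _ _, ?_⟩
      rw [zero_mul, sub_zero, pow_succ' _ 2]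
      exact mul_le_mul (h1.2.trans (le_max_right _ _))
        (pow_le_pow_left₀ (by positivity) (max_le_max_left _ h1.1) _) (by positivity)
        (by positivity)
    · refine ⟨z, Set.mem_insert_of_mem _ hz, ?_⟩
      rw [max_eq_right h2]
      exact h1.trans ((le_max_right 1 C).trans (le_self_pow₀ hC1 (by norm_num)))
  choose ζ _ hζ using hζ
  let σ₀ : K →+* ℂ := (algebraMap Qb ℂ).comp (algebraMap K Qb)
  obtain ⟨μ, hμ⟩ := core U (fun ν => lf (X ν)) (fun ν => lf (X' ν)) (fun σ => (ζ σ : ℂ))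
    (fun σ => mem_algebraicClosure_iff.1 (ζ σ).2) ((d : ℝ) ^ 3 * max 1 C ^ 3) (by
      filter_upwards [hx, eventually_all.2 hζ] with ν h1 h2 σ
      have h3 : σ (lf (X ν)) = ((d * g σ (X ν) : Qb) : ℂ) := by
        rw [← hg, h1.1, map_mul, map_natCast]
      have h4 : σ (lf (X' ν)) = ((d * g σ (X' ν) : Qb) : ℂ) := by
        rw [← hg, h1.2, map_mul, map_natCast]
      have h5 : ‖σ (lf (X ν))‖ = d * ‖g σ (X ν)‖ := by
        rw [h3, ← norm_natCast_Qb, ← norm_mul]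
        rfl
      have h6 : ‖σ (lf (X' ν)) - ζ σ * σ (lf (X ν))‖ = d * ‖g σ (X' ν) - ζ σ * g σ (X ν)‖ := by
        rw [h3, h4, ← norm_natCast_Qb, ← norm_mul]
        have : (d : Qb) * (g σ (X' ν) - ζ σ * g σ (X ν)) =
            d * g σ (X' ν) - ζ σ * (d * g σ (X ν)) := by ring
        rw [this]
        rfl
      have h7 : max 1 (d * ‖g σ (X ν)‖) ≤ d * max 1 ‖g σ (X ν)‖ :=
        max_le (one_le_mul_of_one_le_of_one_le hd1 (le_max_left _ _))
          (mul_le_mul_of_nonneg_left (le_max_right _ _) (by positivity))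
      rw [h5, h6]
      calc _ ≤ d * ‖g σ (X' ν) - ζ σ * g σ (X ν)‖ * (d * max 1 ‖g σ (X ν)‖) ^ 2 := by gcongr
        _ = (d : ℝ) ^ 3 * (‖g σ (X' ν) - ζ σ * g σ (X ν)‖ * (max 1 ‖g σ (X ν)‖) ^ 2) := by ring
        _ ≤ _ := mul_le_mul_of_nonneg_left (h2 σ) (by positivity)) σ₀ (by
      refine tendsto_atTop_mono' _ ?_ hlim
      filter_upwards [hx] with ν h1
      have h2 : ‖σ₀ (lf (X ν))‖ = ‖((lf (X ν) : K) : Qb)‖ := rfl
      rw [h2, h1.1, norm_mul, norm_natCast_Qb]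
      exact le_mul_of_one_le_left (norm_nonneg _) hd1)
  have hμ' : ∀ᶠ ν in (U : Filter ℕ), X' ν = (μ : Qb) * X ν := by
    filter_upwards [hx, hμ] with ν h1 h2
    have h3 : ((lf (X' ν) : K) : Qb) = (μ : Qb) * ((lf (X ν) : K) : Qb) :=
      congrArg (fun z : K => (z : Qb)) h2
    rw [h1.1, h1.2] at h3
    exact mul_left_cancel₀ hd' (h3.trans (by ring))
  obtain ⟨z, hz, hz'⟩ := ultra_const (finite_roots_one hM) U
    (P := fun ν z => ‖X' ν - z * X ν‖ * ‖X ν‖ ^ 2 ≤ C ∧ 1 ≤ ‖X ν‖) (by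
      filter_upwards [h, hlim.eventually_gt_atTop C] with ν h1 h2
      rcases h1.2.2.2 1 with h3 | ⟨z, hz, h3⟩
      · exact absurd h3.1 (not_le.2 h2)
      · exact ⟨z, hz, h3⟩)
  refine ⟨z, hz, ?_⟩
  have hμz : (μ : Qb) = z := by
    by_contra hne
    have h0 : 0 < ‖(μ : Qb) - z‖ := norm_pos_iff.2 (sub_ne_zero.2 hne)
    obtain ⟨ν, ⟨h1, h2, h3⟩, h4⟩ :=
      ((hμ'.and hz').and (hlim.eventually_gt_atTop (C / ‖(μ : Qb) - z‖))).exists
    rw [h1, ← sub_mul, norm_mul] at h2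
    rw [div_lt_iff₀ h0] at h4
    have h5 : (1 : ℝ) ≤ ‖X ν‖ ^ 2 := one_le_pow₀ h3
    have h6 : 0 ≤ ‖(μ : Qb) - z‖ * ‖X ν‖ := by positivity
    nlinarith
  rwa [hμz] at hμ'

end Pool.Agent.MP_09973c_nt.H45
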